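import Pool.Agent.Q237.ESN.CntA

/-!
# Project ESN (helper161): the fibres of the classes modulo squares (job DENS, helper237)
-/

set_option autoImplicit false

namespace Pool.Agent.Q237.ESN

open NumberField Finset Filter Topology

open scoped Classical

section
variable {F : Type} [Field F] [NumberField F]

/-- two ideals whose product is a square -/
theorem sq_split {I J C : Ideal (𝓞 F)} (hI : I ≠ ⊥) (hJ : J ≠ ⊥) (h : I * J = C ^ 2) :
    ∃ E B B' : Ideal (𝓞 F), I = E * B ^ 2 ∧ J = E * B' ^ 2 := by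
  letI : GCDMonoid (Ideal (𝓞 F)) := UniqueFactorizationMonoid.toGCDMonoid _
  obtain ⟨i, j, hi, hj, hu⟩ := extract_gcd I J
  set g := gcd I J with hg
  have hg0 : g ≠ 0 := by
    intro h0
    rw [h0, zero_mul] at hi
    exact hI hi
  have h1 : g ^ 2 * (i * j) = C ^ 2 := by
    rw [← h]
    calc g ^ 2 * (i * j) = (g * i) * (g * j) := by ring
      _ = I * J := by rw [← hi, ← hj]
  have h2 : g ∣ C := (UniqueFactorizationMonoid.pow_dvd_pow_iff_dvd two_ne_zero).1 ⟨i * j, h1.symm⟩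
  obtain ⟨c, rfl⟩ := h2
  have h3 : i * j = c ^ 2 := by
    have : g ^ 2 * (i * j) = g ^ 2 * c ^ 2 := by rw [h1, mul_pow]
    exact mul_left_cancel₀ (pow_ne_zero 2 hg0) this
  obtain ⟨b, hb⟩ := exists_eq_pow_of_mul_eq_pow hu h3
  have hu' : IsUnit (gcd j i) := by
    rw [(gcd_comm' i j).isUnit_iff] at hu
    exact hu
  obtain ⟨b', hb'⟩ := exists_eq_pow_of_mul_eq_pow hu' (by rw [mul_comm]; exact h3)
  refine ⟨g, b, b', ?_, ?_⟩
  · rw [hi, hb]
  · rw [hj, hb']

/-- the good ideals: only the ideals of `S` are square divisors -/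
def Good (S : Finset (Ideal (𝓞 F))) (I : Ideal (𝓞 F)) : Prop :=
  I ≠ ⊥ ∧ ∀ B : Ideal (𝓞 F), B ^ 2 ∣ I → B ∈ S

/-- the number of the good ideals `J` such that `I J` is a square -/
theorem good_fibre (S : Finset (Ideal (𝓞 F))) (I : Ideal (𝓞 F)) (hI : Good S I)
    (T : Finset (Ideal (𝓞 F))) (hT : ∀ J ∈ T, Good S J ∧ ∃ C, I * J = C ^ 2) :
    T.card ≤ S.card * S.card := by
  have h1 : ∀ J ∈ T, ∃ b : Ideal (𝓞 F) × Ideal (𝓞 F), b.1 ∈ S ∧ b.2 ∈ S ∧ b.1 ≠ ⊥ ∧
      b.1 ^ 2 * J = b.2 ^ 2 * I := by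
    intro J hJ
    obtain ⟨hG, C, hC⟩ := hT J hJ
    obtain ⟨E, B, B', e1, e2⟩ := sq_split hI.1 hG.1 hC
    refine ⟨(B, B'), hI.2 B ⟨E, by rw [e1, mul_comm]⟩, hG.2 B' ⟨E, by rw [e2, mul_comm]⟩, ?_, ?_⟩
    · intro h0
      simp only at h0
      apply hI.1
      rw [e1, h0]
      simp
    · simp only
      rw [e2, e1]
      ring
  choose! b hb1 hb2 hb3 hb4 using h1
  rw [← Finset.card_product]
  refine Finset.card_le_card_of_injOn b (fun J hJ => ?_) ?_
  · rw [Finset.mem_coe, Finset.mem_product]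
    exact ⟨hb1 J hJ, hb2 J hJ⟩
  · intro J hJ J' hJ' he
    have h2 := hb4 J hJ
    have h3 := hb4 J' hJ'
    rw [← he] at h3
    rw [← h3] at h2
    exact mul_left_cancel₀ (pow_ne_zero 2 (hb3 J hJ)) h2

/-- the number of the ideals which are not good -/
theorem bad_le {C ε : ℝ} (hC : 0 < C) (hcnt : ∀ x : ℝ, 0 ≤ x → ((ids F x).card : ℝ) ≤ C * x)
    {S : Finset (Ideal (𝓞 F))}
    (hS : ∀ t : Finset (Ideal (𝓞 F)), (∀ I ∈ t, I ≠ ⊥ ∧ I ∉ S) →
      ∑ I ∈ t, 1 / (((Ideal.absNorm I : ℕ) : ℝ)) ^ 2 < ε) (x : ℝ) (hx : 1 ≤ x) :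
    (((ids F x).filter fun I => ¬ Good S I).card : ℝ) ≤ C * ε * x := by
  set t := (ids F x).filter fun B => B ∉ S with ht
  have hsub : ((ids F x).filter fun I => ¬ Good S I) ⊆
      t.biUnion fun B => (ids F (x / ((Ideal.absNorm B : ℕ) : ℝ) ^ 2)).image fun J => B ^ 2 * J := by
    intro I hI
    rw [Finset.mem_filter, mem_ids] at hI
    obtain ⟨⟨hI0, hIx⟩, hg⟩ := hI
    unfold Good at hg
    push Not at hg
    obtain ⟨B, ⟨J, hJ⟩, hBS⟩ := hg hI0
    have hB0 : B ≠ ⊥ := by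
      rintro rfl
      apply hI0
      rw [hJ]
      simp
    have hJ0 : J ≠ ⊥ := by
      rintro rfl
      apply hI0
      rw [hJ]
      simp
    have hnm : ((Ideal.absNorm I : ℕ) : ℝ) =
        ((Ideal.absNorm B : ℕ) : ℝ) ^ 2 * ((Ideal.absNorm J : ℕ) : ℝ) := by
      rw [hJ, map_mul, map_pow]
      push_cast
      rfl
    have b1 := one_le_nm hB0
    have j1 := one_le_nm hJ0
    rw [Finset.mem_biUnion]
    refine ⟨B, ?_, ?_⟩
    · rw [ht, Finset.mem_filter, mem_ids]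
      refine ⟨⟨hB0, ?_⟩, hBS⟩
      rw [hnm] at hIx
      nlinarith
    · rw [Finset.mem_image]
      refine ⟨J, ?_, hJ.symm⟩
      rw [mem_ids]
      refine ⟨hJ0, ?_⟩
      rw [le_div_iff₀ (by positivity), mul_comm, ← hnm]
      exact hIx
  have h1 : (((ids F x).filter fun I => ¬ Good S I).card : ℝ) ≤
      ∑ B ∈ t, C * x * (1 / (((Ideal.absNorm B : ℕ) : ℝ)) ^ 2) := by
    have h2 : (((ids F x).filter fun I => ¬ Good S I).card : ℝ) ≤
        ((∑ B ∈ t, ((ids F (x / ((Ideal.absNorm B : ℕ) : ℝ) ^ 2)).image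
          fun J => B ^ 2 * J).card : ℕ) : ℝ) := by
      exact_mod_cast (Finset.card_le_card hsub).trans Finset.card_biUnion_le
    refine h2.trans ?_
    push_cast
    refine Finset.sum_le_sum fun B hB => ?_
    have h3 : (((ids F (x / ((Ideal.absNorm B : ℕ) : ℝ) ^ 2)).image
          fun J => B ^ 2 * J).card : ℝ) ≤
        ((ids F (x / ((Ideal.absNorm B : ℕ) : ℝ) ^ 2)).card : ℝ) := by
      exact_mod_cast Finset.card_image_le
    refine h3.trans ((hcnt _ (by positivity)).trans (le_of_eq ?_))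
    ring
  refine h1.trans ?_
  rw [← Finset.mul_sum]
  have h4 := hS t (by
    intro I hI
    rw [ht, Finset.mem_filter, mem_ids] at hI
    exact ⟨hI.1.1, hI.2⟩)
  have h5 : 0 < C * x := by positivity
  nlinarith

end

end Pool.Agent.Q237.ESN
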