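import Pool.Agent.Q161.ESN.Stm4
import Pool.Agent.Q237.ESN.CntB

/-!
# Project ESN (helper161): the number of the classes modulo squares (job DENS, helper237)
-/

set_option autoImplicit false

namespace Pool.Agent.Q237.ESN

open NumberField IsDedekindDomain Finset Pool.Agent.Q161.ESN

open scoped Classical

section
variable {F : Type} [Field F] [NumberField F]

lemma oddAt_dvd {α : 𝓞 F} {v : HeightOneSpectrum (𝓞 F)} (h : OddAt v (α : F)) :
    v.asIdeal ∣ Ideal.span {α} := by
  rw [Ideal.dvd_span_singleton]
  by_contra hn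
  obtain ⟨k, hk⟩ := h
  have h1 : v.valuation F (α : F) = 1 := by
    have h2 := v.valuation_le_one (K := F) α
    have h3 : ¬ v.valuation F (algebraMap (𝓞 F) F α) < 1 := by
      rw [v.valuation_lt_one_iff_mem]
      exact hn
    exact le_antisymm h2 (not_lt.1 h3)
  rw [h1, ← WithZero.exp_zero, WithZero.exp_inj] at hk
  omega

lemma oddNorm_le (α : 𝓞 F) (hα : α ≠ 0) :
    oddNorm (α : F) ≤ Ideal.absNorm (Ideal.span {α}) := by
  have hne : Ideal.span {α} ≠ ⊥ := by
    rw [Ne, Ideal.span_singleton_eq_bot]
    exact hα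
  have hfin : {v : HeightOneSpectrum (𝓞 F) | OddAt v (α : F)}.Finite :=
    (Ideal.finite_factors hne).subset fun v hv => oddAt_dvd hv
  have h1 : oddNorm (α : F) = ∏ v ∈ hfin.toFinset, Ideal.absNorm v.asIdeal := by
    unfold oddNorm
    exact finprod_mem_eq_finite_toFinset_prod _ hfin
  have h2 : ∏ v ∈ hfin.toFinset, v.asIdeal ∣ Ideal.span {α} := by
    refine Finset.prod_dvd_of_coprime ?_ ?_
    · intro v _ w _ hvw
      exact (Ideal.isCoprime_iff_sup_eq).2 (v.isMaximal.coprime_of_ne w.isMaximal
        (fun h => hvw (HeightOneSpectrum.ext h)))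
    · intro v hv
      rw [Set.Finite.mem_toFinset] at hv
      exact oddAt_dvd hv
  rw [h1, ← map_prod]
  refine Nat.le_of_dvd ?_ (Ideal.absNorm_dvd_absNorm_of_le (Ideal.dvd_iff_le.1 h2))
  rw [Nat.pos_iff_ne_zero, Ne, Ideal.absNorm_eq_zero_iff]
  exact hne

end

/-- DENS: the number of the classes modulo squares is at least `c X`. -/
theorem dens : S_DENS := by
  intro F _ _
  obtain ⟨C, hC, hcnt⟩ := ids_le F
  obtain ⟨c1, x0, hc1, hx0, hprs⟩ := prs_ge F
  obtain ⟨S, hS⟩ := exists_small F (c1 / (2 * C)) (by positivity)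
  set K : ℝ := (S.card * S.card : ℕ) + 1 with hK
  have hK1 : 1 ≤ K := by
    rw [hK]
    have : (0 : ℝ) ≤ ((S.card * S.card : ℕ) : ℝ) := Nat.cast_nonneg _
    linarith
  refine ⟨min (c1 / (2 * K)) (1 / x0), by positivity, ?_⟩
  intro X hX
  rcases lt_or_ge X x0 with hXx | hXx
  · refine ⟨{1}, ?_, ?_, ?_⟩
    · intro D hD
      rw [Finset.mem_singleton] at hD
      rw [hD]
      refine ⟨one_ne_zero, ?_⟩
      have := oddNorm_le (F := F) 1 one_ne_zero
      rw [Ideal.span_singleton_one, Ideal.absNorm_top] at this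
      have e1 : ((1 : 𝓞 F) : F) = 1 := rfl
      rw [e1] at this
      have h2 : ((oddNorm (1 : F) : ℕ) : ℝ) ≤ 1 := by exact_mod_cast this
      exact h2.trans hX
    · intro D hD D' hD' hne
      rw [Finset.mem_singleton] at hD hD'
      exact absurd (hD.trans hD'.symm) hne
    · rw [Finset.card_singleton, Nat.cast_one]
      have h1 : min (c1 / (2 * K)) (1 / x0) ≤ 1 / x0 := min_le_right _ _
      have h2 : 1 / x0 * X ≤ 1 := by
        rw [one_div, inv_mul_le_iff₀ (by linarith), mul_one]
        exact hXx.le
      have : min (c1 / (2 * K)) (1 / x0) * X ≤ 1 / x0 * X :=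
        mul_le_mul_of_nonneg_right h1 (by linarith)
      linarith
  -- the good principal ideals
  set G := ((ids F X).filter fun I => Submodule.IsPrincipal I).filter fun I => Good S I with hG
  have hGmem : ∀ I ∈ G, I ≠ ⊥ ∧ ((Ideal.absNorm I : ℕ) : ℝ) ≤ X ∧ Submodule.IsPrincipal I ∧
      Good S I := by
    intro I hI
    rw [hG, Finset.mem_filter, Finset.mem_filter, mem_ids] at hI
    exact ⟨hI.1.1.1, hI.1.1.2, hI.1.2, hI.2⟩
  have hGcard : c1 / 2 * X ≤ (G.card : ℝ) := by
    have h1 := hprs X hXx
    have h2 := bad_le hC hcnt hS X hX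
    have h3 : ((ids F X).filter fun I => Submodule.IsPrincipal I).card ≤
        G.card + ((ids F X).filter fun I => ¬ Good S I).card := by
      have h4 : ((ids F X).filter fun I => Submodule.IsPrincipal I) ⊆
          G ∪ ((ids F X).filter fun I => ¬ Good S I) := by
        intro I hI
        rw [Finset.mem_union]
        by_cases hg : Good S I
        · left
          rw [hG, Finset.mem_filter]
          exact ⟨hI, hg⟩
        · right
          rw [Finset.mem_filter] at hI ⊢
          exact ⟨hI.1, hg⟩
      exact (Finset.card_le_card h4).trans (Finset.card_union_le _ _)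
    have h5 : (((ids F X).filter fun I => Submodule.IsPrincipal I).card : ℝ) ≤
        (G.card : ℝ) + (((ids F X).filter fun I => ¬ Good S I).card : ℝ) := by
      exact_mod_cast h3
    have h6 : C * (c1 / (2 * C)) * X = c1 / 2 * X := by
      field_simp
    rw [h6] at h2
    linarith
  -- generators
  have hgen : ∀ I : {I // I ∈ G}, ∃ α : 𝓞 F, α ≠ 0 ∧ I.1 = Ideal.span {α} := by
    intro I
    obtain ⟨h1, -, ⟨α, hα⟩, -⟩ := hGmem I.1 I.2
    refine ⟨α, ?_, hα⟩
    rintro rfl
    apply h1
    rw [hα]
    simp
  choose α hα0 hα using hgen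
  have hαF : ∀ I, (α I : F) ≠ 0 := fun I => by
    rw [Ne, RingOfIntegers.coe_eq_zero_iff]
    exact hα0 I
  let r : Setoid {I // I ∈ G} :=
    { r := fun I J => IsSquare ((α I : F) * (α J : F))
      iseqv :=
        { refl := fun I => ⟨_, rfl⟩
          symm := fun {I J} h => by rw [mul_comm]; exact h
          trans := fun {I J L} h1 h2 => by
            obtain ⟨a, ha⟩ := h1
            obtain ⟨b, hb⟩ := h2
            refine ⟨a * b / (α J : F), ?_⟩
            have h3 := hαF J
            field_simp
            calc (α I : F) * (α L : F) * (α J : F) ^ 2 =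
                ((α I : F) * (α J : F)) * ((α J : F) * (α L : F)) := by ring
              _ = (a * a) * (b * b) := by rw [ha, hb]
              _ = a ^ 2 * b ^ 2 := by ring } }
  set f : {I // I ∈ G} → F := fun I => (α (Quotient.mk r I).out : F) with hf
  have hout : ∀ I : {I // I ∈ G}, IsSquare ((α (Quotient.mk r I).out : F) * (α I : F)) := by
    intro I
    have : r ((Quotient.mk r I).out) I := Quotient.mk_out I
    exact this
  refine ⟨Finset.univ.image f, ?_, ?_, ?_⟩
  · intro D hD
    rw [Finset.mem_image] at hD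
    obtain ⟨I, -, rfl⟩ := hD
    refine ⟨hαF _, ?_⟩
    set J := (Quotient.mk r I).out with hJ
    have h1 := oddNorm_le (α J) (hα0 J)
    rw [← hα J] at h1
    have h2 : ((oddNorm ((α J : 𝓞 F) : F) : ℕ) : ℝ) ≤ ((Ideal.absNorm J.1 : ℕ) : ℝ) := by
      exact_mod_cast h1
    exact h2.trans (hGmem J.1 J.2).2.1
  · intro D hD D' hD' hne hsq
    rw [Finset.mem_image] at hD hD'
    obtain ⟨I, -, rfl⟩ := hD
    obtain ⟨I', -, rfl⟩ := hD'
    apply hne
    have h1 : r ((Quotient.mk r I).out) ((Quotient.mk r I').out) := hsq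
    have h2 : Quotient.mk r I = Quotient.mk r I' := by
      rw [← Quotient.out_eq (Quotient.mk r I), ← Quotient.out_eq (Quotient.mk r I')]
      exact Quotient.sound h1
    rw [hf]
    simp only
    rw [h2]
  · have h1 : (Finset.univ : Finset {I // I ∈ G}).card ≤
        (S.card * S.card) * (Finset.univ.image f).card := by
      refine Finset.card_le_mul_card_image _ _ ?_
      intro D hD
      rw [Finset.mem_image] at hD
      obtain ⟨I0, -, hI0⟩ := hD
      set J0 := (Quotient.mk r I0).out with hJ0
      have h2 := good_fibre S J0.1 (hGmem J0.1 J0.2).2.2.2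
        ((Finset.univ.filter fun I => f I = D).map (Function.Embedding.subtype _)) (by
        intro J hJ
        rw [Finset.mem_map] at hJ
        obtain ⟨I, hI, rfl⟩ := hJ
        rw [Finset.mem_filter] at hI
        refine ⟨(hGmem I.1 I.2).2.2.2, ?_⟩
        have h3 : (α J0 : F) = (α (Quotient.mk r I).out : F) := by
          rw [← hI0] at hI
          exact hI.2.symm
        have h4 := hout I
        rw [← h3] at h4
        obtain ⟨γ, hγ⟩ := h4
        have h5 : IsIntegral ℤ γ := by
          have h6 : IsIntegral ℤ (γ ^ 2) := by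
            rw [pow_two, ← hγ]
            exact (RingOfIntegers.isIntegral_coe _).mul (RingOfIntegers.isIntegral_coe _)
          exact IsIntegral.of_pow two_pos h6
        obtain ⟨g, hg⟩ : ∃ g : 𝓞 F, (g : F) = γ := ⟨⟨γ, h5⟩, rfl⟩
        refine ⟨Ideal.span {g}, ?_⟩
        change J0.1 * I.1 = _
        have h7 : α J0 * α I = g * g := by
          apply RingOfIntegers.coe_injective
          rw [map_mul, map_mul]
          exact hγ.trans (by rw [← hg])
        rw [hα J0, hα I, pow_two, Ideal.span_singleton_mul_span_singleton,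
          Ideal.span_singleton_mul_span_singleton, h7])
      rw [Finset.card_map] at h2
      exact h2
    rw [Finset.card_univ, Fintype.card_coe] at h1
    have h3 : (G.card : ℝ) ≤ K * ((Finset.univ.image f).card : ℝ) := by
      have h4 : (G.card : ℝ) ≤ ((S.card * S.card : ℕ) : ℝ) * ((Finset.univ.image f).card : ℝ) := by
        exact_mod_cast h1
      refine h4.trans (mul_le_mul_of_nonneg_right ?_ (Nat.cast_nonneg _))
      rw [hK]
      linarith
    have h5 : min (c1 / (2 * K)) (1 / x0) * X ≤ c1 / (2 * K) * X :=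
      mul_le_mul_of_nonneg_right (min_le_left _ _) (by linarith)
    refine h5.trans ?_
    have h6 : c1 / (2 * K) * X = (c1 / 2 * X) / K := by
      field_simp
    rw [h6, div_le_iff₀ (by linarith), mul_comm _ K]
    linarith

end Pool.Agent.Q237.ESN
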