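import Pool.Agent.Q161.ESN.Stm4
import Pool.Agent.Q239.EL.CL
import Pool.Agent.Q237.ESN.DENS

/-!
# Project ESN (helper161): representatives of the classes modulo squares (job REP, helper237)
-/

set_option autoImplicit false

namespace Pool.Agent.Q237.ESN

open NumberField IsDedekindDomain Finset Pool.Agent.Q161.ESN Pool.Agent.Q51.EL

open scoped Classical

section
variable {F : Type} [Field F] [NumberField F]

lemma val_one_of_not_mem {x : 𝓞 F} {v : HeightOneSpectrum (𝓞 F)} (h : x ∉ v.asIdeal) :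
    v.valuation F (x : F) = 1 := by
  have h2 := v.valuation_le_one (K := F) x
  have h3 : ¬ v.valuation F (algebraMap (𝓞 F) F x) < 1 := by
    rw [v.valuation_lt_one_iff_mem]
    exact h
  exact le_antisymm h2 (not_lt.1 h3)

lemma oddAt_finite (D : F) (hD : D ≠ 0) :
    {v : HeightOneSpectrum (𝓞 F) | OddAt v D}.Finite := by
  obtain ⟨a, b, hb, hab⟩ := IsFractionRing.div_surjective (A := 𝓞 F) D
  have hb0 : b ≠ 0 := nonZeroDivisors.ne_zero hb
  have ha0 : a ≠ 0 := by
    rintro rfl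
    apply hD
    rw [← hab, map_zero, zero_div]
  have h1 : (Ideal.span {a} : Ideal (𝓞 F)) ≠ ⊥ := by
    rw [Ne, Ideal.span_singleton_eq_bot]; exact ha0
  have h2 : (Ideal.span {b} : Ideal (𝓞 F)) ≠ ⊥ := by
    rw [Ne, Ideal.span_singleton_eq_bot]; exact hb0
  refine ((Ideal.finite_factors h1).union (Ideal.finite_factors h2)).subset ?_
  rintro v ⟨k, hk⟩
  by_contra hcon
  simp only [Set.mem_union, Set.mem_setOf_eq, not_or, Ideal.dvd_span_singleton] at hcon
  have h3 := val_one_of_not_mem hcon.1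
  have h4 := val_one_of_not_mem hcon.2
  have h5 : v.valuation F D = 1 := by
    rw [← hab, map_div₀]
    have e1 : v.valuation F (algebraMap (𝓞 F) F a) = 1 := h3
    have e2 : v.valuation F (algebraMap (𝓞 F) F b) = 1 := h4
    rw [e1, e2, div_one]
  rw [h5, ← WithZero.exp_zero, WithZero.exp_inj] at hk
  omega

lemma par_zero {v : HeightOneSpectrum (𝓞 F)} {D : F} (hD : D ≠ 0) (h : ¬ OddAt v D) :
    Par v D 0 := by
  have h0 : v.valuation F D ≠ 0 := (Valuation.ne_zero_iff _).2 hD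
  have h1 : v.valuation F D = WithZero.exp (WithZero.log (v.valuation F D)) :=
    (WithZero.exp_log h0).symm
  set m := WithZero.log (v.valuation F D) with hm
  rcases Int.even_or_odd' m with ⟨k, hk | hk⟩
  · exact ⟨k, by rw [h1, hk, zero_add]⟩
  · exact absurd ⟨k, by rw [h1, hk]; congr 1; ring⟩ h

lemma not_mem_of_coprime {v : HeightOneSpectrum (𝓞 F)} {l B : ℕ} (hl : l.Prime) (hB : ¬ l ∣ B)
    (hv : (l : 𝓞 F) ∈ v.asIdeal) : (B : 𝓞 F) ∉ v.asIdeal := by
  intro hv'
  have h1 : IsCoprime (l : ℤ) (B : ℤ) :=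
    Nat.isCoprime_iff_coprime.2 ((Nat.Prime.coprime_iff_not_dvd hl).2 hB)
  obtain ⟨x, y, hxy⟩ := h1
  apply v.isPrime.ne_top
  rw [Ideal.eq_top_iff_one]
  have h2 : ((x : ℤ) : 𝓞 F) * (l : 𝓞 F) + ((y : ℤ) : 𝓞 F) * (B : 𝓞 F) = 1 := by
    exact_mod_cast congrArg (fun z : ℤ => (z : 𝓞 F)) hxy
  rw [← h2]
  exact v.asIdeal.add_mem (v.asIdeal.mul_mem_left _ hv) (v.asIdeal.mul_mem_left _ hv')

end

/-- REP: representatives of the classes modulo squares. -/
theorem rep : S_REP := by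
  intro F _ _
  obtain ⟨B, C, hB, hC, h⟩ := Pool.Agent.Q239.EL.cl F
  refine ⟨B, C, hB, hC, ?_⟩
  intro D hD
  have hfin := oddAt_finite D hD
  obtain ⟨η, α, hη, hα, hval, hnorm⟩ := h D hfin.toFinset hD (by
    intro v _
    rw [Set.Finite.mem_toFinset]
    exact ⟨fun hv => hv, fun hv => par_zero hD hv⟩)
  refine ⟨α, η, hη, hα, ⟨?_, ?_⟩, ?_⟩
  · rintro rfl
    have h1 : D * η ^ 2 = 0 := by rw [← hα]; exact map_zero _
    exact (mul_ne_zero hD (pow_ne_zero 2 hη)) h1
  · intro l hl hlB v hv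
    have h1 := hval v (not_mem_of_coprime hl hlB hv)
    by_cases hv' : v ∈ hfin.toFinset
    · exact Or.inr (h1.1 hv')
    · exact Or.inl (h1.2 hv')
  · have h1 : oddNorm D = ∏ v ∈ hfin.toFinset, Ideal.absNorm v.asIdeal := by
      unfold oddNorm
      exact finprod_mem_eq_finite_toFinset_prod _ hfin
    rw [h1]
    push_cast
    exact hnorm

end Pool.Agent.Q237.ESN
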