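import Pool.Agent.Q161.ESN.Stm4

/-!
# Project ESN (helper161): the embeddings of a cubic extension (job EMB3, helper237)
-/

set_option autoImplicit false

namespace Pool.Agent.Q237.ESN

open NumberField IsDedekindDomain Finset Polynomial Pool.Agent.Q161.ESN
open Pool.Agent.Q161.ESF (CubF)

open scoped Classical

/-- the number of the embeddings in a Galois number field -/
theorem card_emb (F L K : Type) [Field F] [NumberField F] [Field L] [NumberField L]
    [Algebra F L] [Field K] [NumberField K] [Algebra F K] [IsGalois ℚ K]
    (h : Nonempty (L →ₐ[F] K)) : Fintype.card (L →ₐ[F] K) = Module.finrank F L := by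
  obtain ⟨ι0⟩ := h
  have hfin : Module.Finite F L := Module.Finite.right ℚ F L
  have hst : IsScalarTower ℚ F K := IsScalarTower.of_algebraMap_eq' (Subsingleton.elim _ _)
  have hsp : ∀ x : L, ((minpoly F x).map (algebraMap F K)).Splits := by
    intro x
    have hx : IsIntegral ℚ x := Algebra.IsIntegral.isIntegral x
    have h1 : ((minpoly ℚ x).map (algebraMap ℚ K)).Splits := by
      have h2 : minpoly ℚ x = minpoly ℚ (ι0 x) := by
        have := minpoly.algHom_eq (RingHom.toRatAlgHom (ι0 : L →+* K))
          (RingHom.injective (ι0 : L →+* K)) x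
        exact this.symm
      rw [h2]
      exact Normal.splits inferInstance (ι0 x)
    have h3 : minpoly F x ∣ (minpoly ℚ x).map (algebraMap ℚ F) :=
      minpoly.dvd_map_of_isScalarTower ℚ F x
    have h4 : (minpoly F x).map (algebraMap F K) ∣ (minpoly ℚ x).map (algebraMap ℚ K) := by
      have := Polynomial.map_dvd (algebraMap F K) h3
      rw [Polynomial.map_map, ← IsScalarTower.algebraMap_eq] at this
      exact this
    refine Polynomial.Splits.of_dvd h1 ?_ h4
    exact (Polynomial.map_ne_zero_iff (algebraMap ℚ K).injective).2 (minpoly.ne_zero hx)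
  have pb := Field.powerBasisOfFiniteOfSeparable F L
  have h5 := AlgHom.natCard_of_powerBasis (L := K) pb (Algebra.IsSeparable.isSeparable F pb.gen)
    (hsp pb.gen)
  rw [← pb.finrank] at h5
  rw [← h5, Nat.card_eq_fintype_card]

/-- EMB3: the embeddings of a cubic extension. -/
theorem emb3 : S_EMB3 := by
  intro F L K _ _ _ _ _ _ _ _ _ a b th hC hemb
  have hcard : Fintype.card (L →ₐ[F] K) = 3 := (card_emb F L K hemb).trans hC.deg
  refine ⟨hcard, ⟨by rw [hcard]; decide, ?_⟩⟩
  intro ι ι' h
  have hfin : Module.Finite F L := Module.Finite.right ℚ F L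
  have hmonic : (X ^ 3 + C (a : F) * X + C (b : F) : F[X]).Monic := by monicity!
  have hdeg : (X ^ 3 + C (a : F) * X + C (b : F) : F[X]).natDegree = 3 := by compute_degree!
  have hroot : Polynomial.aeval (th : L) (X ^ 3 + C (a : F) * X + C (b : F) : F[X]) = 0 := by
    have := hC.root
    simpa using this
  have hmin : (minpoly F (th : L)).natDegree = Module.finrank F L := by
    rw [← minpoly.eq_of_irreducible_of_monic hC.irr hroot hmonic, hdeg, hC.deg]
  have htop : IntermediateField.adjoin F {(th : L)} = ⊤ :=
    (Field.primitive_element_iff_minpoly_natDegree_eq F (th : L)).2 hmin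
  have hint : IsIntegral F (th : L) := Algebra.IsIntegral.isIntegral _
  have htop2 : Algebra.adjoin F {(th : L)} = ⊤ := by
    rw [← IntermediateField.adjoin_simple_toSubalgebra_of_isAlgebraic hint.isAlgebraic, htop,
      IntermediateField.top_toSubalgebra]
  refine AlgHom.ext_of_adjoin_eq_top htop2 ?_
  intro x hx
  rw [Set.mem_singleton_iff] at hx
  rw [hx]
  exact h

end Pool.Agent.Q237.ESN
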