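import Mathlib

/-!
# Project ESN (helper161): counting ideals of a number field (job DENS, helper237)
-/

set_option autoImplicit false

namespace Pool.Agent.Q237.ESN

open NumberField Finset Filter Topology

open scoped Classical

section
variable (F : Type) [Field F] [NumberField F]

/-- the nonzero ideals of norm at most `x` -/
noncomputable def ids (x : ℝ) : Finset (Ideal (𝓞 F)) :=
  Set.Finite.toFinset (s := {I : Ideal (𝓞 F) | I ≠ ⊥ ∧ ((Ideal.absNorm I : ℕ) : ℝ) ≤ x})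
    ((Ideal.finite_setOfPred_absNorm_le (S := 𝓞 F) ⌊x⌋₊).subset (by
      rintro I ⟨-, hI⟩
      exact Nat.le_floor hI))

variable {F}

lemma mem_ids {x : ℝ} {I : Ideal (𝓞 F)} :
    I ∈ ids F x ↔ I ≠ ⊥ ∧ ((Ideal.absNorm I : ℕ) : ℝ) ≤ x := by
  unfold ids
  rw [Set.Finite.mem_toFinset]
  rfl

lemma one_le_nm {I : Ideal (𝓞 F)} (hI : I ≠ ⊥) : (1 : ℝ) ≤ ((Ideal.absNorm I : ℕ) : ℝ) := by
  have : Ideal.absNorm I ≠ 0 := by
    rw [Ne, Ideal.absNorm_eq_zero_iff]
    exact hI
  exact_mod_cast Nat.one_le_iff_ne_zero.2 this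

lemma ids_mono {x y : ℝ} (h : x ≤ y) : ids F x ⊆ ids F y := by
  intro I hI
  rw [mem_ids] at hI ⊢
  exact ⟨hI.1, hI.2.trans h⟩

variable (F)

/-- there are at most `C x` ideals of norm at most `x` -/
theorem ids_le : ∃ C : ℝ, 0 < C ∧ ∀ x : ℝ, 0 ≤ x → ((ids F x).card : ℝ) ≤ C * x := by
  have h := Ideal.tendsto_norm_le_div_atTop F
  set L := (2 ^ InfinitePlace.nrRealPlaces F * (2 * Real.pi) ^ InfinitePlace.nrComplexPlaces F *
    Units.regulator F * classNumber F) / (Units.torsionOrder F * Real.sqrt |(discr F : ℝ)|) with hL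
  have h2 := h.eventually (gt_mem_nhds (lt_add_one L))
  obtain ⟨s0, hs0⟩ := (h2.and (eventually_ge_atTop 1)).exists_forall_of_atTop
  have hcard : ∀ x : ℝ, ((ids F x).card : ℝ) ≤
      (Nat.card {I : Ideal (𝓞 F) // ((Ideal.absNorm I : ℕ) : ℝ) ≤ x} : ℝ) := by
    intro x
    have hfin' : {I : Ideal (𝓞 F) | ((Ideal.absNorm I : ℕ) : ℝ) ≤ x}.Finite :=
      (Ideal.finite_setOfPred_absNorm_le (S := 𝓞 F) ⌊x⌋₊).subset
        (fun I hI => Nat.le_floor hI)
    have hfin : Finite {I : Ideal (𝓞 F) // ((Ideal.absNorm I : ℕ) : ℝ) ≤ x} := hfin'.to_subtype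
    have : Nat.card (ids F x) ≤
        Nat.card {I : Ideal (𝓞 F) // ((Ideal.absNorm I : ℕ) : ℝ) ≤ x} := by
      refine Nat.card_le_card_of_injective
        (fun I : ids F x => (⟨I.1, (mem_ids.1 I.2).2⟩ :
          {I : Ideal (𝓞 F) // ((Ideal.absNorm I : ℕ) : ℝ) ≤ x})) ?_
      intro I J hIJ
      exact Subtype.ext (congrArg (fun z => z.1) hIJ)
    rw [Nat.card_eq_fintype_card, Fintype.card_coe] at this
    exact_mod_cast this
  set s1 := max s0 1 with hs1
  have hbig : ∀ x : ℝ, s1 ≤ x → ((ids F x).card : ℝ) ≤ (L + 1) * x := by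
    intro x hx
    obtain ⟨h3, h4⟩ := hs0 x (le_trans (le_max_left _ _) hx)
    have hx0 : 0 < x := by linarith
    rw [div_lt_iff₀ hx0] at h3
    exact (hcard x).trans h3.le
  have hs10 : 0 < s1 := lt_of_lt_of_le one_pos (le_max_right _ _)
  refine ⟨|L + 1| * (s1 + 1) + 1, by positivity, ?_⟩
  intro x hx
  rcases lt_or_ge x 1 with hx1 | hx1
  · have : ids F x = ∅ := by
      rw [Finset.eq_empty_iff_forall_notMem]
      intro I hI
      rw [mem_ids] at hI
      have := one_le_nm hI.1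
      linarith [hI.2]
    rw [this, Finset.card_empty, Nat.cast_zero]
    positivity
  · rcases le_or_gt s1 x with h5 | h5
    · refine (hbig x h5).trans ?_
      have h6 : L + 1 ≤ |L + 1| := le_abs_self _
      have h7 : |L + 1| ≤ |L + 1| * (s1 + 1) + 1 := by
        have := abs_nonneg (L + 1)
        nlinarith
      exact mul_le_mul_of_nonneg_right (h6.trans h7) hx
    · have h6 : ((ids F x).card : ℝ) ≤ ((ids F s1).card : ℝ) := by
        exact_mod_cast Finset.card_le_card (ids_mono h5.le)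
      have h7 := hbig s1 le_rfl
      have h8 : (L + 1) * s1 ≤ |L + 1| * (s1 + 1) + 1 := by
        have h9 : L + 1 ≤ |L + 1| := le_abs_self _
        have := abs_nonneg (L + 1)
        nlinarith
      have h10 : 0 < |L + 1| * (s1 + 1) + 1 := by positivity
      nlinarith

/-- there are at least `c x` principal ideals of norm at most `x`, for large `x` -/
theorem prs_ge : ∃ (c x0 : ℝ), 0 < c ∧ 1 ≤ x0 ∧ ∀ x : ℝ, x0 ≤ x →
    c * x ≤ (((ids F x).filter fun I => Submodule.IsPrincipal I).card : ℝ) := by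
  have h := Ideal.tendsto_norm_le_and_mk_eq_div_atTop F 1
  set L := (2 ^ InfinitePlace.nrRealPlaces F * (2 * Real.pi) ^ InfinitePlace.nrComplexPlaces F *
    Units.regulator F) / (Units.torsionOrder F * Real.sqrt |(discr F : ℝ)|) with hL
  have hLpos : 0 < L := by
    have h1 := Units.regulator_pos F
    have h2 : 0 < Units.torsionOrder F := Units.torsionOrder_pos F
    have h3 : (discr F : ℝ) ≠ 0 := by exact_mod_cast discr_ne_zero F
    have h4 : 0 < |(discr F : ℝ)| := abs_pos.2 h3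
    rw [hL]
    positivity
  have h2 := h.eventually (lt_mem_nhds (half_lt_self hLpos))
  obtain ⟨s0, hs0⟩ := (h2.and (eventually_ge_atTop 1)).exists_forall_of_atTop
  refine ⟨L / 2, max s0 1, by positivity, le_max_right _ _, ?_⟩
  intro x hx
  obtain ⟨h3, h4⟩ := hs0 x (le_trans (le_max_left _ _) hx)
  have hx0 : 0 < x := by linarith
  rw [lt_div_iff₀ hx0] at h3
  refine h3.le.trans ?_
  have hle : Nat.card {I : nonZeroDivisors (Ideal (𝓞 F)) //
      ((Ideal.absNorm (I : Ideal (𝓞 F)) : ℕ) : ℝ) ≤ x ∧ ClassGroup.mk0 I = 1} ≤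
      Nat.card ((ids F x).filter fun I => Submodule.IsPrincipal I) := by
    refine Nat.card_le_card_of_injective
      (fun I => (⟨I.1.1, ?_⟩ : ((ids F x).filter fun I => Submodule.IsPrincipal I))) ?_
    · rw [Finset.mem_filter, mem_ids]
      refine ⟨⟨?_, I.2.1⟩, ?_⟩
      · exact nonZeroDivisors.ne_zero I.1.2
      · exact (ClassGroup.mk0_eq_one_iff I.1.2).1 I.2.2
    · intro I J hIJ
      have h5 : I.1.1 = J.1.1 := congrArg (fun z => z.1) hIJ
      exact Subtype.ext (Subtype.ext h5)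
  rw [Nat.card_eq_fintype_card (α := ((ids F x).filter fun I => Submodule.IsPrincipal I)),
    Fintype.card_coe] at hle
  exact_mod_cast hle

/-- the sum of the inverse squares of the norms converges -/
theorem sum_le : ∃ C : ℝ, 0 < C ∧ ∀ s : Finset (Ideal (𝓞 F)), (∀ I ∈ s, I ≠ ⊥) →
    ∑ I ∈ s, 1 / (((Ideal.absNorm I : ℕ) : ℝ)) ^ 2 ≤ C := by
  obtain ⟨C, hC, hcnt⟩ := ids_le F
  refine ⟨4 * C, by positivity, ?_⟩
  intro s hs
  set f : Ideal (𝓞 F) → ℕ := fun I => Nat.log 2 (Ideal.absNorm I) with hf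
  have h1 : ∑ I ∈ s, 1 / (((Ideal.absNorm I : ℕ) : ℝ)) ^ 2 =
      ∑ j ∈ s.image f, ∑ I ∈ s with f I = j, 1 / (((Ideal.absNorm I : ℕ) : ℝ)) ^ 2 :=
    (Finset.sum_fiberwise_of_maps_to (fun I hI => Finset.mem_image_of_mem f hI) _).symm
  rw [h1]
  have h2 : ∀ j ∈ s.image f, ∑ I ∈ s with f I = j, 1 / (((Ideal.absNorm I : ℕ) : ℝ)) ^ 2 ≤
      (2 * C) * (1 / 2) ^ j := by
    intro j _
    have h3 : ∀ I ∈ s.filter (fun I => f I = j), 1 / (((Ideal.absNorm I : ℕ) : ℝ)) ^ 2 ≤
        1 / ((2 : ℝ) ^ j) ^ 2 := by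
      intro I hI
      rw [Finset.mem_filter] at hI
      have h4 : Ideal.absNorm I ≠ 0 := by
        rw [Ne, Ideal.absNorm_eq_zero_iff]
        exact hs I hI.1
      have h5 : 2 ^ j ≤ Ideal.absNorm I := by
        rw [← hI.2]
        exact Nat.pow_log_le_self 2 h4
      have h6 : (2 : ℝ) ^ j ≤ ((Ideal.absNorm I : ℕ) : ℝ) := by exact_mod_cast h5
      apply one_div_le_one_div_of_le (by positivity)
      exact pow_le_pow_left₀ (by positivity) h6 2
    refine (Finset.sum_le_card_nsmul _ _ _ h3).trans ?_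
    have h7 : s.filter (fun I => f I = j) ⊆ ids F ((2 : ℝ) ^ (j + 1)) := by
      intro I hI
      rw [Finset.mem_filter] at hI
      rw [mem_ids]
      refine ⟨hs I hI.1, ?_⟩
      have h5 : Ideal.absNorm I < 2 ^ (j + 1) := by
        rw [← hI.2]
        exact Nat.lt_pow_succ_log_self (by norm_num) _
      exact_mod_cast h5.le
    have h8 : ((s.filter (fun I => f I = j)).card : ℝ) ≤ C * 2 ^ (j + 1) := by
      refine le_trans ?_ (hcnt ((2 : ℝ) ^ (j + 1)) (by positivity))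
      exact_mod_cast Finset.card_le_card h7
    rw [nsmul_eq_mul]
    have h9 : (0 : ℝ) < 2 ^ j := by positivity
    calc ((s.filter (fun I => f I = j)).card : ℝ) * (1 / ((2 : ℝ) ^ j) ^ 2) ≤
        (C * 2 ^ (j + 1)) * (1 / ((2 : ℝ) ^ j) ^ 2) := by gcongr
      _ = (2 * C) * (1 / 2) ^ j := by
        rw [one_div_pow]
        field_simp
        ring
  refine (Finset.sum_le_sum h2).trans ?_
  rw [← Finset.mul_sum]
  have h10 : ∑ j ∈ s.image f, ((1 : ℝ) / 2) ^ j ≤ 2 := by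
    have h11 : Summable (fun j : ℕ => ((1 : ℝ) / 2) ^ j) := summable_geometric_two
    exact (h11.sum_le_tsum _ (fun j _ => by positivity)).trans (le_of_eq tsum_geometric_two)
  nlinarith

/-- a finite set of ideals with small complement -/
theorem exists_small (ε : ℝ) (hε : 0 < ε) : ∃ S : Finset (Ideal (𝓞 F)),
    ∀ t : Finset (Ideal (𝓞 F)), (∀ I ∈ t, I ≠ ⊥ ∧ I ∉ S) →
      ∑ I ∈ t, 1 / (((Ideal.absNorm I : ℕ) : ℝ)) ^ 2 < ε := by
  obtain ⟨C, hC, hsum⟩ := sum_le F
  have hsm : Summable (fun I : {I : Ideal (𝓞 F) // I ≠ ⊥} =>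
      1 / (((Ideal.absNorm I.1 : ℕ) : ℝ)) ^ 2) := by
    refine summable_of_sum_le (c := C) (fun I => by positivity) ?_
    intro u
    have := hsum (u.map (Function.Embedding.subtype _)) (by
      intro I hI
      rw [Finset.mem_map] at hI
      obtain ⟨J, _, rfl⟩ := hI
      exact J.2)
    rw [Finset.sum_map] at this
    exact this
  obtain ⟨S, hS⟩ := summable_iff_vanishing_norm.1 hsm ε hε
  refine ⟨S.map (Function.Embedding.subtype _), ?_⟩
  intro t ht
  have h1 := hS (t.subtype (fun I => I ≠ ⊥)) (by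
    rw [Finset.disjoint_left]
    intro I hI hIS
    rw [Finset.mem_subtype] at hI
    exact (ht I.1 hI).2 (Finset.mem_map.2 ⟨I, hIS, rfl⟩))
  have h2 : ∑ I ∈ t.subtype (fun I => I ≠ ⊥), 1 / (((Ideal.absNorm I.1 : ℕ) : ℝ)) ^ 2 =
      ∑ I ∈ t, 1 / (((Ideal.absNorm I : ℕ) : ℝ)) ^ 2 := by
    rw [Finset.sum_subtype_of_mem (fun I => 1 / (((Ideal.absNorm I : ℕ) : ℝ)) ^ 2)
      (fun I hI => (ht I hI).1)]
  rw [← h2]
  exact lt_of_le_of_lt (le_abs_self _) h1

end

end Pool.Agent.Q237.ESN
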